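import Pool.Agent.H95.ConeEx

set_option autoImplicit false
open Filter Topology Pool.Agent.H95.ConeDefs

universe v

theorem Pool.Agent.Results.MP_5ab9c0_an.NotOC.result :
    ∃ (X : Type) (_ : NormedAddCommGroup X) (_ : NormedSpace ℝ X) (_ : CompleteSpace X)
      (K : Set X), IsCone K ∧
      (∀ (J : Type v) [Preorder J] [IsDirectedOrder J] [Nonempty J] (y : J → X) (s : X),
        Increasing K y → IsSup K y s → Tendsto y atTop (𝓝 s)) ∧
      ∃ x : ℕ → X, Increasing K x ∧ (∃ u, IsUB K x u) ∧ ¬ ∃ l, Tendsto x atTop (𝓝 l) :=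
  ⟨Pool.Agent.H95.ConeEx.E, inferInstance, inferInstance, inferInstance, Pool.Agent.H95.ConeEx.K,
    Pool.Agent.H95.ConeEx.cone, fun _ _ _ _ y s => Pool.Agent.H95.ConeEx.order_cont y s,
    Pool.Agent.H95.ConeEx.x, Pool.Agent.H95.ConeEx.x_incr, ⟨_, Pool.Agent.H95.ConeEx.minub.1⟩,
    fun ⟨l, hl⟩ => Pool.Agent.H95.ConeEx.nosup ⟨l, Pool.Agent.H95.ConeEx.sup_of_tendsto
      Pool.Agent.H95.ConeEx.cone Pool.Agent.H95.ConeEx.x_incr hl⟩⟩
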